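import Pool.Agent.V11232.RC.Cmp
import Pool.Agent.S15649

/-!
Left random context grammars with erasing rules generate all recursively enumerable languages:
no right random context rule is needed, `k_min = 0`.
-/

set_option autoImplicit false

namespace Pool.Agent.Results.MP_05b2f7_lc.KMinZero

open Relation

/-- A rule `(A → x, U, W)` with terminals `T` and nonterminals `N`. -/
abbrev Rule (T N : Type) : Type := N × List (Symbol T N) × Finset N × Finset N

/-- A direct derivation step of the one-sided random context grammar with the left random context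
rules `PL` and the right random context rules `PR`. -/
def Step {T N : Type} (PL PR : Finset (Rule T N)) (α β : List (Symbol T N)) : Prop :=
  ∃ (u v : List (Symbol T N)) (A : N) (x : List (Symbol T N)) (U W : Finset N),
    α = u ++ [Symbol.nonterminal A] ++ v ∧ β = u ++ x ++ v ∧
    (((A, x, U, W) ∈ PL ∧ (∀ B ∈ U, Symbol.nonterminal B ∈ u) ∧
        (∀ B ∈ W, Symbol.nonterminal B ∉ u)) ∨
      ((A, x, U, W) ∈ PR ∧ (∀ B ∈ U, Symbol.nonterminal B ∈ v) ∧
        (∀ B ∈ W, Symbol.nonterminal B ∉ v)))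

/-- the language of the one-sided random context grammar `(N, T, PL, PR, S)` -/
def lang {T N : Type} (PL PR : Finset (Rule T N)) (S : N) : Set (List T) :=
  {w | ReflTransGen (Step PL PR) [Symbol.nonterminal S] (w.map Symbol.terminal)}

/-- `L` is recursively enumerable: it is generated by an unrestricted grammar with a finite set
`P` of rules `l → r`, `l` nonempty. -/
def RE {T : Type} (L : Set (List T)) : Prop :=
  ∃ (N : Type) (_ : Finite N) (S : N) (P : Set (List (Symbol T N) × List (Symbol T N))),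
    P.Finite ∧ (∀ ρ ∈ P, ρ.1 ≠ []) ∧
    L = {w | ReflTransGen (fun α β => ∃ x y, ∃ ρ ∈ P, α = x ++ ρ.1 ++ y ∧ β = x ++ ρ.2 ++ y)
      [Symbol.nonterminal S] (w.map Symbol.terminal)}

/-- Every recursively enumerable language is generated by a one-sided random context grammar with
at most `k` right random context rules. -/
def Suffices (k : ℕ) : Prop :=
  ∀ (T : Type) [Finite T] (L : Set (List T)), RE L →
    ∃ (N : Type) (_ : Finite N) (S : N) (PL PR : Finset (Rule T N)),
      PR.card ≤ k ∧ lang PL PR S = L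

/-- Left random context grammars (`P_R = ∅`) generate all recursively enumerable languages, so
`k_min = 0`. -/
theorem result :
    (∀ (T : Type) [Finite T] (L : Set (List T)), RE L →
      ∃ (N : Type) (_ : Finite N) (S : N) (PL : Finset (Rule T N)), lang PL ∅ S = L) ∧
    IsLeast {k : ℕ | Suffices k} 0 := by
  classical
  have h1 : ∀ (T : Type) [Finite T] (L : Set (List T)), RE L →
      ∃ (N : Type) (_ : Finite N) (S : N) (PL : Finset (Rule T N)), lang PL ∅ S = L := by
    rintro T _ L ⟨N, hN, S, P, hP, hne, rfl⟩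
    obtain ⟨N1, hN1, S1, PL1, PR1, h1⟩ :=
      Pool.Agent.V11232.RC.exists_osrc T N S P hP hne
    obtain ⟨N2, hN2, S2, PL2, PR2, h2, h3⟩ :=
      Pool.Agent.S15649.result T N1 inferInstance hN1 S1 PL1 PR1
    refine ⟨N2, hN2, S2, PL2 ∪ PR2, ?_⟩
    ext w
    refine Iff.trans ?_ ((h1 w).trans (h3 w)).symm
    have e : Step (PL2 ∪ PR2) ∅ = (fun (α β : List (Symbol T N2)) =>
            ∃ (u v : List (Symbol T N2)) (A : N2) (x : List (Symbol T N2)) (U W : Finset N2),
              α = u ++ [Symbol.nonterminal A] ++ v ∧ β = u ++ x ++ v ∧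
              (((A, x, U, W) ∈ PL2 ∧ (∀ B ∈ U, Symbol.nonterminal B ∈ u) ∧
                  (∀ B ∈ W, Symbol.nonterminal B ∉ u)) ∨
               ((A, x, U, W) ∈ PR2 ∧ (∀ B ∈ U, Symbol.nonterminal B ∈ v) ∧
                  (∀ B ∈ W, Symbol.nonterminal B ∉ v)))) := by
      funext α β
      apply propext
      constructor
      · rintro ⟨u, v, A, x, U, W, hα, hβ, ⟨hm, hU, hW⟩ | ⟨hm, _⟩⟩
        · rcases Finset.mem_union.1 hm with hm | hm
          · exact ⟨u, v, A, x, U, W, hα, hβ, Or.inl ⟨hm, hU, hW⟩⟩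
          · obtain ⟨rfl, rfl⟩ := h2 A x U W hm
            exact ⟨u, v, A, x, ∅, ∅, hα, hβ, Or.inr ⟨hm, by simp, by simp⟩⟩
        · simp at hm
      · rintro ⟨u, v, A, x, U, W, hα, hβ, ⟨hm, hU, hW⟩ | ⟨hm, hU, hW⟩⟩
        · exact ⟨u, v, A, x, U, W, hα, hβ, Or.inl ⟨Finset.mem_union_left _ hm, hU, hW⟩⟩
        · obtain ⟨rfl, rfl⟩ := h2 A x U W hm
          exact ⟨u, v, A, x, ∅, ∅, hα, hβ, Or.inl ⟨Finset.mem_union_right _ hm, by simp, by simp⟩⟩
    change ReflTransGen (Step (PL2 ∪ PR2) ∅) _ _ ↔ _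
    rw [e]
  refine ⟨h1, ?_, fun k _ => Nat.zero_le k⟩
  intro T _ L hL
  obtain ⟨N, hN, S, PL, h⟩ := h1 T L hL
  exact ⟨N, hN, S, PL, ∅, by simp, h⟩

end Pool.Agent.Results.MP_05b2f7_lc.KMinZero
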